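import Mathlib
import Pool.Agent.Q284.DD.Pos

set_option autoImplicit false

/-!
Ratios of counts of permutations with one double descent.
-/

namespace Pool.Agent.Results.MP_a5b9bd_co.SingletonRatio

open Filter Topology Finset

/-- `i` is a double descent of the permutation `w` of `{1, ..., n}`, positions being numbered
from `1`: `2 ≤ i ≤ n - 1` and `w(i-1) > w(i) > w(i+1)`. -/
def IsDD {n : ℕ} (w : Equiv.Perm (Fin n)) (i : ℕ) : Prop :=
  ∃ (_ : 2 ≤ i) (_ : i + 1 ≤ n), w ⟨i - 1, by omega⟩ < w ⟨i - 2, by omega⟩ ∧
    w ⟨i, by omega⟩ < w ⟨i - 1, by omega⟩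

/-- the number of permutations of `[n]` whose double descent set is exactly `I` -/
noncomputable def dd (I : Finset ℕ) (n : ℕ) : ℕ :=
  Nat.card {w : Equiv.Perm (Fin n) // ∀ i, IsDD w i ↔ i ∈ I}

open Pool.Agent.Q284.DD (N chk dd_succ ratio_limit)

/-- every word is realized -/
lemma N_pos (l : List Bool) : ∀ P : List Bool → Bool, P l = true →
    0 < N l.length (l.count true) P := by
  induction l with
  | nil =>
    intro P h
    simp [N, h]
  | cons b l ih =>
    intro P h
    rw [List.length_cons, N]
    have hc : l.count true ≤ l.length := List.count_le_length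
    have hmem : l.count true ∈ range (l.length + 1) := by
      rw [Finset.mem_range]; omega
    refine lt_of_lt_of_le ?_ (Finset.single_le_sum (f := fun i => N l.length i (fun l' =>
      P (decide (i < (b :: l).count true) :: l'))) (fun _ _ => Nat.zero_le _) hmem)
    apply ih
    have : decide (l.count true < (b :: l).count true) = b := by
      cases b <;> simp
    rw [this]
    exact h

lemma chk_asc (i : ℕ) (m : ℕ) : ∀ (p : ℕ) (s : Bool), i < p →
    chk {i} s p (List.replicate m false) = true := by
  induction m with
  | zero =>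
    intro p s h
    simp [chk, h]
  | succ m ih =>
    intro p s h
    rw [List.replicate_succ, chk, ih (p + 1) false (by omega)]
    simp
    omega

lemma chk_word (i m : ℕ) : ∀ r p, p + r + 1 = i →
    chk {i} false p (List.replicate r false ++ (true :: true :: List.replicate m false)) = true := by
  intro r
  induction r with
  | zero =>
    intro p h
    have h1 : p ≠ i := by omega
    have h2 : p + 1 = i := by omega
    rw [List.replicate_zero, List.nil_append, chk, chk, h2, chk_asc i m (i + 1) true (by omega)]
    simp [h1]
  | succ r ih =>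
    intro p h
    have h1 : p ≠ i := by omega
    rw [List.replicate_succ, List.cons_append, chk, ih (p + 1) (by omega)]
    simp [h1]

lemma dd_pos (i : ℕ) (hi : 2 ≤ i) : ∀ᶠ n in atTop, 0 < Pool.Agent.Q284.DD.dd {i} n := by
  filter_upwards [eventually_ge_atTop (i + 1)] with n hn
  obtain ⟨n, rfl⟩ : ∃ n', n = n' + 1 := ⟨n - 1, by omega⟩
  rw [dd_succ, if_neg (by simp; omega)]
  set l : List Bool := List.replicate (i - 2) false ++ (true :: true ::
    List.replicate (n - i) false) with hl
  have hlen : l.length = n := by
    rw [hl]
    simp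
    omega
  have h1 := N_pos l (chk {i} false 1) (chk_word i (n - i) (i - 2) 1 (by omega))
  rw [hlen] at h1
  have hc : l.count true ∈ range (n + 1) := by
    have : l.count true ≤ l.length := List.count_le_length
    rw [Finset.mem_range]; omega
  exact lt_of_lt_of_le h1 (Finset.single_le_sum (f := fun j => N n j (chk {i} false 1))
    (fun _ _ => Nat.zero_le _) hc)

/-- For all `i, j ≥ 2` the ratio `dd({i};n)/dd({j};n)` converges to a positive real number. -/
theorem result : ∀ i j : ℕ, 2 ≤ i → 2 ≤ j → ∃ L : ℝ, 0 < L ∧
    Tendsto (fun n => (dd {i} n : ℝ) / (dd {j} n : ℝ)) atTop (𝓝 L) :=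
  fun i j hi hj => ratio_limit {i} {j} (dd_pos i hi) (dd_pos j hj)

end Pool.Agent.Results.MP_a5b9bd_co.SingletonRatio
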